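import Mathlib

/-!
# The pointwise Barbashin-type criterion fails

On `ℓ¹(ℕ)` put `A_j x = x_j e_{j+1}`.  Then `A_m^k x = x_k e_m` for `k < m`, so that
`∑_{k ≤ m} ‖A_m^k x‖ = ‖x‖ + ∑_{k < m} |x_k| ≤ 2 ‖x‖`, while `‖A_m^k e_k‖ = 1` for all `k ≤ m`.
-/

set_option autoImplicit false

open scoped ENNReal

namespace Pool.Agent.Results.MP_a62e4d_an.PointwiseFails

section Defs

variable {𝕜 X : Type} [RCLike 𝕜] [NormedAddCommGroup X] [NormedSpace 𝕜 X]

/-- `evol A k n` is the evolution operator `A_{k+n}^k = A_{k+n-1} ⋯ A_k` (the identity for `n = 0`). -/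
def evol (A : ℕ → X →L[𝕜] X) (k : ℕ) : ℕ → X →L[𝕜] X
  | 0 => ContinuousLinearMap.id 𝕜 X
  | n + 1 => (A (k + n)).comp (evol A k n)

/-- uniform exponential stability -/
def UES (A : ℕ → X →L[𝕜] X) : Prop :=
  ∃ N ν : ℝ, 1 ≤ N ∧ 0 < ν ∧ ∀ m k : ℕ, k ≤ m → ∀ x : X,
    ‖evol A k (m - k) x‖ ≤ N * Real.exp (-ν * ((m : ℝ) - k)) * ‖x‖

/-- condition (iii) -/
def CondThree (A : ℕ → X →L[𝕜] X) (B : ℝ) : Prop :=
  ∀ (m : ℕ) (x : X), ∑ k ∈ Finset.range (m + 1), ‖evol A k (m - k) x‖ ≤ B * ‖x‖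

end Defs

variable (𝕜 : Type) [RCLike 𝕜]

/-- `ℓ¹(ℕ)` -/
abbrev E : Type := lp (fun _ : ℕ => 𝕜) 1

/-- `A_j x = x_j e_{j+1}` -/
noncomputable def op (j : ℕ) : E 𝕜 →L[𝕜] E 𝕜 :=
  (lp.singleContinuousLinearMap 𝕜 (fun _ : ℕ => 𝕜) 1 (j + 1)).comp
    (lp.evalCLM 𝕜 (fun _ : ℕ => 𝕜) 1 j)

theorem op_apply (j : ℕ) (x : E 𝕜) : op 𝕜 j x = lp.single 1 (j + 1) (x j) := rfl

theorem evol_op (k n : ℕ) (x : E 𝕜) :
    evol (op 𝕜) k (n + 1) x = lp.single 1 (k + n + 1) (x k) := by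
  induction n with
  | zero => rfl
  | succ n ih =>
    have h1 : evol (op 𝕜) k (n + 1 + 1) x = op 𝕜 (k + (n + 1)) (evol (op 𝕜) k (n + 1) x) := rfl
    rw [h1, ih, op_apply]
    congr 1
    have : k + (n + 1) = k + n + 1 := by ring
    rw [this]
    exact lp.single_apply_self _ _ _

theorem norm_evol (k n : ℕ) (x : E 𝕜) : ‖evol (op 𝕜) k (n + 1) x‖ = ‖x k‖ := by
  rw [evol_op]
  exact lp.norm_single (by simp) _ _

theorem condThree : CondThree (op 𝕜) 2 := by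
  intro m x
  rw [Finset.sum_range_succ]
  have h1 : ∑ k ∈ Finset.range m, ‖evol (op 𝕜) k (m - k) x‖ = ∑ k ∈ Finset.range m, ‖x k‖ := by
    apply Finset.sum_congr rfl
    intro k hk
    rw [Finset.mem_range] at hk
    obtain ⟨n, rfl⟩ := Nat.exists_eq_add_of_lt hk
    have : k + n + 1 - k = n + 1 := by omega
    rw [this, norm_evol]
  have h2 : ∑ k ∈ Finset.range m, ‖x k‖ ≤ ‖x‖ := by
    have := lp.sum_rpow_le_norm_rpow (p := 1) (by simp) x (Finset.range m)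
    simpa using this
  have h3 : ‖evol (op 𝕜) m (m - m) x‖ = ‖x‖ := by
    rw [Nat.sub_self]; rfl
  rw [h1, h3]
  linarith

theorem not_ues : ¬ UES (op 𝕜) := by
  rintro ⟨N, ν, hN, hν, h⟩
  have h1 : ∀ n : ℕ, (1 : ℝ) ≤ N * Real.exp (-ν * ((n : ℝ) + 1)) := by
    intro n
    have := h (n + 1) 0 (by omega) (lp.single 1 0 1)
    rw [Nat.sub_zero, norm_evol, lp.single_apply_self, lp.norm_single (by simp)] at this
    simpa using this
  have h2 : Filter.Tendsto (fun n : ℕ => N * Real.exp (-ν * ((n : ℝ) + 1))) Filter.atTop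
      (nhds (N * 0)) := by
    apply Filter.Tendsto.const_mul
    apply Real.tendsto_exp_atBot.comp
    have : Filter.Tendsto (fun n : ℕ => (n : ℝ) + 1) Filter.atTop Filter.atTop :=
      Filter.tendsto_atTop_add_const_right _ _ tendsto_natCast_atTop_atTop
    exact this.const_mul_atTop_of_neg (by linarith)
  have h3 := ge_of_tendsto' h2 h1
  norm_num at h3

/-- Condition (iii) does not imply uniform exponential stability: over `𝕜 = ℝ` or `ℂ`, there are a Banach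
space and a sequence of bounded operators on it satisfying (iii) with `B = 2` but not uniformly
exponentially stable. -/
theorem result (𝕜 : Type) [RCLike 𝕜] :
    ∃ (X : Type) (_ : NormedAddCommGroup X) (_ : NormedSpace 𝕜 X) (_ : CompleteSpace X)
      (A : ℕ → X →L[𝕜] X), CondThree A 2 ∧ ¬ UES A :=
  ⟨E 𝕜, inferInstance, inferInstance, inferInstance, op 𝕜, condThree 𝕜, not_ues 𝕜⟩

end Pool.Agent.Results.MP_a62e4d_an.PointwiseFails
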